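import Mathlib

/-!
# MP_388f8c_an: a closed cone weakly separated from the origin without a bounded base
-/

namespace Pool.Agent.Results.MP_388f8c_an.ClosedCone

open Set Metric Topology

variable {X : Type*} [NormedAddCommGroup X] [NormedSpace ℝ X]

/-- A (pointed convex) cone. -/
structure IsCone (C : Set X) : Prop where
  nonempty : C.Nonempty
  add_mem : ∀ x ∈ C, ∀ y ∈ C, x + y ∈ C
  smul_mem : ∀ r : ℝ, 0 ≤ r → ∀ x ∈ C, r • x ∈ C
  pointed : C ∩ {x | -x ∈ C} = {0}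

/-- `B` is a base of the cone `C`. -/
structure IsBase (C B : Set X) : Prop where
  nonempty : B.Nonempty
  convex : Convex ℝ B
  subset : B ⊆ C
  zero_notMem : (0 : X) ∉ closure B
  unique_rep : ∀ c ∈ C, c ≠ 0 → ∃! p : ℝ × X, 0 < p.1 ∧ p.2 ∈ B ∧ c = p.1 • p.2

/-- `C` has a bounded base. -/
def HasBoundedBase (C : Set X) : Prop := ∃ B, IsBase C B ∧ Bornology.IsBounded B

/-- The condition `(∗)`: `0` is not in the weak closure of `C ∖ ε B_X`, for every
`ε ∈ (0,1)`. -/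
def Star (C : Set X) : Prop :=
  ∀ ε ∈ Ioo (0 : ℝ) 1,
    (0 : WeakSpace ℝ X) ∉ closure (toWeakSpace ℝ X '' (C \ closedBall (0 : X) ε))

variable {Z : Type*} [NormedAddCommGroup Z] [NormedSpace ℝ Z]

/-- the cone in `ℝ × Y` -/
def cone (Y : Submodule ℝ Z) (u : Z) (g : Z →L[ℝ] ℝ) : Set (ℝ × Y) :=
  {p | ‖(p.2 : Z) - g p.2 • u‖ ≤ p.1}

lemma cone_isCone (Y : Submodule ℝ Z) (u : Z) (hu : u ∉ Y) (g : Z →L[ℝ] ℝ) :
    IsCone (cone Y u g) where
  nonempty := ⟨0, by simp [cone]⟩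
  add_mem := by
    rintro ⟨s, y⟩ h ⟨s', y'⟩ h'
    simp only [cone, mem_ofPred_eq, Prod.mk_add_mk, Submodule.coe_add, map_add] at *
    have : (y : Z) + y' - (g y + g y') • u = ((y : Z) - g y • u) + ((y' : Z) - g y' • u) := by
      rw [add_smul]; abel
    rw [this]
    exact (norm_add_le _ _).trans (add_le_add h h')
  smul_mem := by
    rintro r hr ⟨s, y⟩ h
    simp only [cone, mem_ofPred_eq, Prod.smul_mk, Submodule.coe_smul, map_smul, smul_eq_mul] at *
    have : r • (y : Z) - (r * g y) • u = r • ((y : Z) - g y • u) := by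
      rw [smul_sub, smul_smul]
    rw [this, norm_smul, Real.norm_eq_abs, abs_of_nonneg hr]
    exact mul_le_mul_of_nonneg_left h hr
  pointed := by
    ext ⟨s, y⟩
    simp only [cone, mem_inter_iff, mem_ofPred_eq, mem_singleton_iff]
    constructor
    · rintro ⟨h1, h2⟩
      simp only [Prod.neg_mk, Submodule.coe_neg, map_neg] at h2
      have h0 := norm_nonneg ((y : Z) - g y • u)
      have h0' := norm_nonneg (-(y : Z) - -g y • u)
      have hs : s = 0 := by linarith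
      rw [hs] at h1
      have h3 : (y : Z) - g y • u = 0 := norm_le_zero_iff.mp h1
      have h4 : (y : Z) = g y • u := sub_eq_zero.mp h3
      have hg : g y = 0 := by
        by_contra hg
        apply hu
        have : u = (g y)⁻¹ • (y : Z) := by
          rw [h4, smul_smul]
          have : (g ((g y) • u))⁻¹ * g y = 1 := by
            rw [← h4]; exact inv_mul_cancel₀ hg
          rw [this, one_smul]
        rw [this]
        exact Y.smul_mem _ y.2
      have hy : y = 0 := by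
        rw [hg, zero_smul] at h4
        exact_mod_cast h4
      rw [hs, hy]; rfl
    · rintro h
      rw [Prod.mk_eq_zero] at h
      obtain ⟨rfl, rfl⟩ := h
      simp

lemma cone_closed (Y : Submodule ℝ Z) (u : Z) (g : Z →L[ℝ] ℝ) : IsClosed (cone Y u g) := by
  apply isClosed_le <;> fun_prop

lemma cone_star (Y : Submodule ℝ Z) (u : Z) (g : Z →L[ℝ] ℝ) : Star (cone Y u g) := by
  rintro ε ⟨hε, -⟩ hcl
  rw [_root_.mem_closure_iff] at hcl
  set κ : ℝ := ε / (1 + ‖u‖) with hκ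
  have hu1 : 0 < 1 + ‖u‖ := by positivity
  have hκ0 : 0 < κ := by positivity
  set f₁ : StrongDual ℝ (ℝ × Y) := ContinuousLinearMap.fst ℝ ℝ Y with hf₁
  set f₂ : StrongDual ℝ (ℝ × Y) := (g.comp Y.subtypeL).comp (ContinuousLinearMap.snd ℝ ℝ Y) with hf₂
  have c1 : Continuous fun x : WeakSpace ℝ (ℝ × Y) => (topDualPairing ℝ (ℝ × Y)).flip x f₁ :=
    WeakBilin.eval_continuous _ f₁
  have c2 : Continuous fun x : WeakSpace ℝ (ℝ × Y) => (topDualPairing ℝ (ℝ × Y)).flip x f₂ :=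
    WeakBilin.eval_continuous _ f₂
  obtain ⟨x, ⟨hx1, hx2⟩, hx3⟩ := hcl
    ({x | |(topDualPairing ℝ (ℝ × Y)).flip x f₁| < κ} ∩
      {x | |(topDualPairing ℝ (ℝ × Y)).flip x f₂| < κ})
    ((isOpen_lt (continuous_abs.comp c1) continuous_const).inter
      (isOpen_lt (continuous_abs.comp c2) continuous_const))
    ⟨by
      show |f₁ 0| < κ
      simpa using hκ0, by
      show |f₂ 0| < κ
      simpa using hκ0⟩
  obtain ⟨⟨s, y⟩, ⟨hc, hball⟩, rfl⟩ := hx3
  have h1 : |s| < κ := hx1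
  have h2 : |g (y : Z)| < κ := hx2
  have h3 : ‖(y : Z) - g y • u‖ ≤ s := hc
  apply hball
  rw [mem_closedBall, dist_zero_right, Prod.norm_def, max_le_iff]
  have hκε : κ * (1 + ‖u‖) = ε := by rw [hκ]; field_simp
  have hu0 := norm_nonneg u
  constructor
  · simp only [Real.norm_eq_abs]
    nlinarith
  · have h4 : ‖(y : Z)‖ ≤ ‖(y : Z) - g y • u‖ + ‖g (y : Z) • u‖ := by
      have := norm_add_le ((y : Z) - g y • u) (g (y : Z) • u)
      simpa using this
    rw [norm_smul, Real.norm_eq_abs] at h4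
    show ‖(y : Z)‖ ≤ ε
    have h5 : s ≤ |s| := le_abs_self s
    nlinarith

lemma cone_no_base (Y : Submodule ℝ Z) (hd : Dense (Y : Set Z)) (u : Z) (hu : u ≠ 0)
    (g : Z →L[ℝ] ℝ) (hg : g u = 1) : ¬ HasBoundedBase (cone Y u g) := by
  rintro ⟨B, hB, hbdd⟩
  obtain ⟨M, hM0, hM⟩ := hbdd.exists_pos_norm_le
  -- separation
  have h0 : (0 : ℝ × Y) ∈ (closure B)ᶜ := hB.zero_notMem
  obtain ⟨r, hr, hrB⟩ := Metric.isOpen_iff.mp isClosed_closure.isOpen_compl 0 h0
  have hdisj : Disjoint (ball (0 : ℝ × Y) r) B := by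
    rw [Set.disjoint_left]
    intro x hx hxB
    exact hrB hx (subset_closure hxB)
  obtain ⟨f, a, hfa, hfb⟩ := geometric_hahn_banach_open (convex_ball _ _) isOpen_ball
    hB.convex hdisj
  have ha : 0 < a := by
    have := hfa 0 (mem_ball_self hr)
    simpa using this
  have key : ∀ c ∈ cone Y u g, a * ‖c‖ ≤ M * f c := by
    intro c hc
    by_cases hc0 : c = 0
    · simp [hc0]
    · obtain ⟨⟨l, b⟩, ⟨hl, hb, hcb⟩, -⟩ := hB.unique_rep c hc hc0
      simp only at hl hb hcb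
      have h1 := hfb b hb
      have h2 := hM b hb
      rw [hcb, norm_smul, map_smul, Real.norm_eq_abs, abs_of_pos hl, smul_eq_mul]
      have h3 : a * ‖b‖ ≤ M * f b := by
        calc a * ‖b‖ ≤ a * M := mul_le_mul_of_nonneg_left h2 ha.le
          _ = M * a := mul_comm _ _
          _ ≤ M * f b := mul_le_mul_of_nonneg_left h1 hM0.le
      nlinarith
  have hun : 0 < ‖u‖ := norm_pos_iff.mpr hu
  -- choose an approximation
  set K : ℝ := 2 * M * ‖f‖ * (1 + ‖g‖ * ‖u‖) + 1 with hK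
  have hKpos : 0 < K := by positivity
  set ρ : ℝ := min (‖u‖ / 2) (a * ‖u‖ / (2 * K)) with hρ
  have hρ0 : 0 < ρ := by
    rw [hρ]; apply lt_min <;> positivity
  obtain ⟨y', hy', hy'Y⟩ := Metric.dense_iff.mp hd u ρ hρ0
  set y : Y := ⟨y', hy'Y⟩ with hy
  have hyu : ‖(y : Z) - u‖ < ρ := by
    rw [mem_ball, dist_eq_norm] at hy'; exact hy'
  set s : ℝ := ‖(y : Z) - g y • u‖ with hs
  have hs0 : 0 ≤ s := norm_nonneg _
  have hsle : s ≤ ρ * (1 + ‖g‖ * ‖u‖) := by
    have h1 : (y : Z) - g y • u = ((y : Z) - u) + (g (u - y)) • u := by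
      rw [map_sub, hg, sub_smul, one_smul]; abel
    rw [hs, h1]
    refine (norm_add_le _ _).trans ?_
    rw [norm_smul]
    have h2 := g.le_opNorm (u - y)
    rw [norm_sub_rev] at h2
    have h3 : ‖g (u - ↑y)‖ * ‖u‖ ≤ (‖g‖ * ‖(y : Z) - u‖) * ‖u‖ :=
      mul_le_mul_of_nonneg_right h2 hun.le
    have h4 : ‖g‖ * ‖(y : Z) - u‖ * ‖u‖ ≤ ‖g‖ * ρ * ‖u‖ := by
      apply mul_le_mul_of_nonneg_right _ hun.le
      exact mul_le_mul_of_nonneg_left hyu.le (norm_nonneg _)
    nlinarith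
  have m1 : ((s, y) : ℝ × Y) ∈ cone Y u g := by
    show ‖(y : Z) - g y • u‖ ≤ s
    exact le_rfl
  have m2 : ((s, -y) : ℝ × Y) ∈ cone Y u g := by
    show ‖((-y : Y) : Z) - g ((-y : Y) : Z) • u‖ ≤ s
    have : ((-y : Y) : Z) - g ((-y : Y) : Z) • u = -((y : Z) - g y • u) := by
      simp only [Submodule.coe_neg, map_neg, neg_smul]; abel
    rw [this, norm_neg]
  have k1 := key _ m1
  have k2 := key _ m2
  have hsum : f (s, y) + f (s, -y) ≤ ‖f‖ * (2 * s) := by
    rw [← map_add]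
    have h1 : ((s, y) : ℝ × Y) + (s, -y) = (2 * s, 0) := by
      ext <;> simp; ring
    rw [h1]
    have h2 := f.le_opNorm ((2 * s, 0) : ℝ × Y)
    have h3 : ‖((2 * s, 0) : ℝ × Y)‖ = 2 * s := by
      rw [Prod.norm_def]; simp [hs0]
    rw [h3] at h2
    exact (le_abs_self _).trans h2
  have n1 : ‖y‖ ≤ ‖((s, y) : ℝ × Y)‖ := by rw [Prod.norm_def]; exact le_max_right _ _
  have n2 : ‖y‖ ≤ ‖((s, -y) : ℝ × Y)‖ := by
    rw [Prod.norm_def]; simp
  have n3 : ‖u‖ / 2 ≤ ‖y‖ := by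
    have h1 : ‖u‖ ≤ ‖(y : Z)‖ + ‖(y : Z) - u‖ := by
      have := norm_sub_le (y : Z) ((y : Z) - u)
      simpa using this
    have h2 : ρ ≤ ‖u‖ / 2 := min_le_left _ _
    have h3 : ‖y‖ = ‖(y : Z)‖ := rfl
    linarith
  have e1 : a * ‖u‖ ≤ M * (‖f‖ * (2 * s)) := by
    have h1 : a * (‖u‖ / 2) ≤ a * ‖((s, y) : ℝ × Y)‖ :=
      mul_le_mul_of_nonneg_left (n3.trans n1) ha.le
    have h2 : a * (‖u‖ / 2) ≤ a * ‖((s, -y) : ℝ × Y)‖ :=
      mul_le_mul_of_nonneg_left (n3.trans n2) ha.le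
    have h3 : M * (f (s, y) + f (s, -y)) ≤ M * (‖f‖ * (2 * s)) :=
      mul_le_mul_of_nonneg_left hsum hM0.le
    linarith
  have e2 : M * (‖f‖ * (2 * s)) ≤ ρ * K := by
    have h1 : M * (‖f‖ * (2 * s)) = (2 * M * ‖f‖) * s := by ring
    have h2 : (2 * M * ‖f‖) * s ≤ (2 * M * ‖f‖) * (ρ * (1 + ‖g‖ * ‖u‖)) :=
      mul_le_mul_of_nonneg_left hsle (by positivity)
    rw [h1]
    refine h2.trans ?_
    rw [hK]
    nlinarith
  have e3 : ρ * K ≤ a * ‖u‖ / 2 := by
    have h1 : ρ ≤ a * ‖u‖ / (2 * K) := min_le_right _ _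
    calc ρ * K ≤ a * ‖u‖ / (2 * K) * K := mul_le_mul_of_nonneg_right h1 hKpos.le
      _ = a * ‖u‖ / 2 := by field_simp
  have : 0 < a * ‖u‖ := by positivity
  linarith

/-- the polynomial functions on `[-1,1]` -/
noncomputable def polyY : Submodule ℝ C(Icc (-1 : ℝ) 1, ℝ) :=
  Subalgebra.toSubmodule (polynomialFunctions (Icc (-1 : ℝ) 1))

/-- the absolute value -/
def absU : C(Icc (-1 : ℝ) 1, ℝ) where
  toFun x := |(x : ℝ)|
  continuous_toFun := by fun_prop

lemma absU_not : absU ∉ polyY := by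
  intro h
  have h' : absU ∈ polynomialFunctions (Icc (-1 : ℝ) 1) := h
  rw [← SetLike.mem_coe, polynomialFunctions_coe] at h'
  obtain ⟨p, hp⟩ := h'
  have hp' : ∀ x : Icc (-1 : ℝ) 1, p.eval (x : ℝ) = |(x : ℝ)| := by
    intro x
    have := congrArg (fun F : C(Icc (-1 : ℝ) 1, ℝ) => F x) hp
    have h2 : absU x = |(x : ℝ)| := rfl
    rw [← h2]
    simpa using this
  have h1 : p = Polynomial.X := by
    apply Polynomial.eq_of_infinite_eval_eq
    refine Set.Infinite.mono ?_ (Set.Icc_infinite (show (0:ℝ) < 1 by norm_num))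
    intro x hx
    have := hp' ⟨x, by constructor <;> linarith [hx.1, hx.2]⟩
    simp only [mem_ofPred_eq, Polynomial.eval_X]
    simp only [abs_of_nonneg hx.1] at this
    exact this
  have h2 := hp' ⟨-1, by constructor <;> norm_num⟩
  rw [h1] at h2
  simp at h2
  norm_num at h2

/-- **MP_388f8c_an, Q1.** There are a real normed space `X` and a closed cone `C ⊂ X`, other than
`{0}`, which satisfies `(∗)` but has no bounded base. -/
theorem result : ∃ (X : Type) (_ : NormedAddCommGroup X) (_ : NormedSpace ℝ X) (C : Set X),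
    IsCone C ∧ IsClosed C ∧ (∃ c ∈ C, c ≠ 0) ∧ Star C ∧ ¬ HasBoundedBase C := by
  have hu0 : absU ≠ 0 := fun h => absU_not (by rw [h]; exact polyY.zero_mem)
  have hn : ‖absU‖ ≠ 0 := norm_ne_zero_iff.mpr hu0
  obtain ⟨g, -, hg⟩ := exists_dual_vector ℝ absU hn
  have hg1 : ((‖absU‖⁻¹ : ℝ) • g) absU = 1 := by
    have hg' : g absU = ‖absU‖ := by simpa using hg
    simp only [smul_apply, hg', smul_eq_mul]
    exact inv_mul_cancel₀ hn
  have hd : Dense (polyY : Set C(Icc (-1 : ℝ) 1, ℝ)) := by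
    have h1 := polynomialFunctions_closure_eq_top (-1) 1
    rw [dense_iff_closure_eq]
    have h2 : ((polynomialFunctions (Icc (-1 : ℝ) 1)).topologicalClosure :
        Set C(Icc (-1 : ℝ) 1, ℝ)) = univ := by rw [h1]; rfl
    rw [Subalgebra.topologicalClosure_coe] at h2
    exact h2
  exact ⟨ℝ × polyY, inferInstance, inferInstance, cone polyY absU ((‖absU‖⁻¹ : ℝ) • g),
    cone_isCone _ _ absU_not _, cone_closed _ _ _, ⟨(1, 0), by simp [cone], by simp⟩,
    cone_star _ _ _,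
    cone_no_base _ hd _ hu0 _ hg1⟩

end Pool.Agent.Results.MP_388f8c_an.ClosedCone
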